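import Pool.Agent.Q35.HR.Dom

set_option autoImplicit false
set_option linter.unusedSimpArgs false

/-! Convexity and compactness. -/

namespace Pool.Agent.Q35.HR

open Real Filter

lemma hyp_sq (x : Hyp) : x.1 0 ^ 2 = 1 + x.1 1 ^ 2 + x.1 2 ^ 2 := by
  have h := x.2.1
  unfold mink at h
  linarith

/-- reverse Cauchy–Schwarz inequality -/
lemma one_le_mink (x y : Hyp) : 1 ≤ -mink x.1 y.1 := by
  have e1 := hyp_sq x
  have e2 := hyp_sq y
  have hx2 := x.2.2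
  have hy2 := y.2.2
  unfold mink
  have h : (1 + x.1 1 * y.1 1 + x.1 2 * y.1 2) ^ 2 ≤ (x.1 0 * y.1 0) ^ 2 := by
    rw [mul_pow, e1, e2]
    nlinarith [sq_nonneg (x.1 1 - y.1 1), sq_nonneg (x.1 2 - y.1 2),
      sq_nonneg (x.1 1 * y.1 2 - x.1 2 * y.1 1)]
  have := abs_le_of_sq_le_sq h (by positivity)
  linarith [le_abs_self (1 + x.1 1 * y.1 1 + x.1 2 * y.1 2)]

lemma eq_of_mink (x y : Hyp) (h : -mink x.1 y.1 = 1) : x = y := by
  have e1 := hyp_sq x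
  have e2 := hyp_sq y
  have hx2 := x.2.2
  have hy2 := y.2.2
  unfold mink at h
  have e3 : x.1 0 * y.1 0 = 1 + x.1 1 * y.1 1 + x.1 2 * y.1 2 := by linarith
  have e4 : (x.1 0 * y.1 0) ^ 2 = x.1 0 ^ 2 * y.1 0 ^ 2 := by ring
  rw [e3, e1, e2] at e4
  have h1 : (x.1 1 - y.1 1) ^ 2 + (x.1 2 - y.1 2) ^ 2 + (x.1 1 * y.1 2 - x.1 2 * y.1 1) ^ 2 = 0 := by
    nlinarith
  have h2 : x.1 1 = y.1 1 := by
    have : (x.1 1 - y.1 1) ^ 2 = 0 := by
      nlinarith [sq_nonneg (x.1 1 - y.1 1), sq_nonneg (x.1 2 - y.1 2),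
        sq_nonneg (x.1 1 * y.1 2 - x.1 2 * y.1 1)]
    linarith [pow_eq_zero_iff (n := 2) (by norm_num) |>.1 this]
  have h3 : x.1 2 = y.1 2 := by
    have : (x.1 2 - y.1 2) ^ 2 = 0 := by
      nlinarith [sq_nonneg (x.1 1 - y.1 1), sq_nonneg (x.1 2 - y.1 2),
        sq_nonneg (x.1 1 * y.1 2 - x.1 2 * y.1 1)]
    linarith [pow_eq_zero_iff (n := 2) (by norm_num) |>.1 this]
  have h4 : x.1 0 = y.1 0 := by
    have : x.1 0 ^ 2 = y.1 0 ^ 2 := by rw [e1, e2, h2, h3]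
    exact (pow_left_inj₀ hx2.le hy2.le (by norm_num)).1 this
  apply Subtype.ext
  funext i
  fin_cases i
  · exact h4
  · exact h2
  · exact h3

/-- Convexity in the Klein model. -/
lemma klein_convex (u1 v1 u2 v2 s t : ℝ) (hs : 0 ≤ s) (ht : 0 ≤ t) (hst : s + t = 1)
    (h1 : 0 < 1 - u1 ^ 2) (h2 : 0 < 1 - u2 ^ 2)
    (k1 : v1 ^ 2 * (1 - u1 ^ 2) ≤ 1/25 * (576/625 - u1 ^ 2))
    (k2 : v2 ^ 2 * (1 - u2 ^ 2) ≤ 1/25 * (576/625 - u2 ^ 2)) :
    (s * v1 + t * v2) ^ 2 * (1 - (s * u1 + t * u2) ^ 2) ≤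
      1/25 * (576/625 - (s * u1 + t * u2) ^ 2) := by
  have ht' : t = 1 - s := by linarith
  have a1 : v1 ^ 2 ≤ 1/25 * (1 - 49/625 / (1 - u1 ^ 2)) := by
    have : v1 ^ 2 ≤ (1/25 * (576/625 - u1 ^ 2)) / (1 - u1 ^ 2) := by rwa [le_div_iff₀ h1]
    refine this.trans (le_of_eq ?_)
    field_simp; ring
  have a2 : v2 ^ 2 ≤ 1/25 * (1 - 49/625 / (1 - u2 ^ 2)) := by
    have : v2 ^ 2 ≤ (1/25 * (576/625 - u2 ^ 2)) / (1 - u2 ^ 2) := by rwa [le_div_iff₀ h2]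
    refine this.trans (le_of_eq ?_)
    field_simp; ring
  have b1 : (s * v1 + t * v2) ^ 2 ≤ s * v1 ^ 2 + t * v2 ^ 2 := by
    subst ht'; nlinarith [mul_nonneg (mul_nonneg hs ht) (sq_nonneg (v1 - v2))]
  have b2 : (s * u1 + t * u2) ^ 2 ≤ s * u1 ^ 2 + t * u2 ^ 2 := by
    subst ht'; nlinarith [mul_nonneg (mul_nonneg hs ht) (sq_nonneg (u1 - u2))]
  have m0 : 0 < s * (1 - u1 ^ 2) + t * (1 - u2 ^ 2) := by
    rcases lt_or_eq_of_le hs with h | h
    · have := mul_pos h h1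
      have := mul_nonneg ht h2.le
      linarith
    · have : t = 1 := by linarith
      rw [this, ← h]; linarith
  have m1 : s * (1 - u1 ^ 2) + t * (1 - u2 ^ 2) ≤ 1 - (s * u1 + t * u2) ^ 2 := by
    have : s * (1 - u1 ^ 2) + t * (1 - u2 ^ 2) = 1 - (s * u1 ^ 2 + t * u2 ^ 2) := by
      subst ht'; ring
    linarith
  have m2 : 0 < 1 - (s * u1 + t * u2) ^ 2 := by linarith
  have c1 : 1 / (1 - (s * u1 + t * u2) ^ 2) ≤ s / (1 - u1 ^ 2) + t / (1 - u2 ^ 2) := by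
    refine (one_div_le_one_div_of_le m0 m1).trans ?_
    rw [div_add_div _ _ h1.ne' h2.ne', div_le_div_iff₀ m0 (by positivity)]
    subst ht'
    nlinarith [mul_nonneg (mul_nonneg hs ht) (sq_nonneg ((1 - u1 ^ 2) - (1 - u2 ^ 2)))]
  have d1 : (s * v1 + t * v2) ^ 2 ≤ 1/25 * (1 - 49/625 * (1 / (1 - (s * u1 + t * u2) ^ 2))) := by
    have e1 := mul_le_mul_of_nonneg_left a1 hs
    have e2 := mul_le_mul_of_nonneg_left a2 ht
    have e3 : s * (1/25 * (1 - 49/625 / (1 - u1 ^ 2))) + t * (1/25 * (1 - 49/625 / (1 - u2 ^ 2)))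
        = 1/25 * (1 - 49/625 * (s / (1 - u1 ^ 2) + t / (1 - u2 ^ 2))) := by
      subst ht'; ring
    linarith
  have d2 := mul_le_mul_of_nonneg_right d1 m2.le
  refine d2.trans (le_of_eq ?_)
  field_simp
  ring

lemma klein_of_Fq (x : Fin 3 → ℝ) (hx : 0 < x 0) (h : 0 ≤ Fq x) :
    (x 2 / x 0) ^ 2 * (1 - (x 1 / x 0) ^ 2) ≤ 1/25 * (576/625 - (x 1 / x 0) ^ 2) := by
  have e : 1/25 * (576/625 - (x 1 / x 0) ^ 2) - (x 2 / x 0) ^ 2 * (1 - (x 1 / x 0) ^ 2) =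
      Fq x / x 0 ^ 4 := by
    unfold Fq; field_simp; ring
  have : 0 ≤ Fq x / x 0 ^ 4 := by positivity
  linarith

lemma Fq_of_klein (x : Fin 3 → ℝ) (hx : 0 < x 0)
    (h : (x 2 / x 0) ^ 2 * (1 - (x 1 / x 0) ^ 2) ≤ 1/25 * (576/625 - (x 1 / x 0) ^ 2)) :
    0 ≤ Fq x := by
  have e : Fq x = x 0 ^ 4 * (1/25 * (576/625 - (x 1 / x 0) ^ 2) -
      (x 2 / x 0) ^ 2 * (1 - (x 1 / x 0) ^ 2)) := by
    unfold Fq; field_simp; ring
  rw [e]
  exact mul_nonneg (by positivity) (by linarith)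

lemma klein_pos (w : Hyp) : 0 < 1 - (w.1 1 / w.1 0) ^ 2 := by
  have hw := hyp_sq w
  have hw0 := w.2.2
  have : 1 - (w.1 1 / w.1 0) ^ 2 = (1 + w.1 2 ^ 2) / w.1 0 ^ 2 := by field_simp; linarith
  rw [this]; positivity

lemma comb_mem (x y : Hyp) (hx : x ∈ Dom) (hy : y ∈ Dom) (α β : ℝ) (hα : 0 ≤ α) (hβ : 0 ≤ β)
    (z : Hyp) (hz : z.1 = α • x.1 + β • y.1) : z ∈ Dom := by
  change 0 ≤ Fq x.1 at hx
  change 0 ≤ Fq y.1 at hy
  change 0 ≤ Fq z.1
  have e0 : z.1 0 = α * x.1 0 + β * y.1 0 := by rw [hz]; rfl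
  have e1 : z.1 1 = α * x.1 1 + β * y.1 1 := by rw [hz]; rfl
  have e2 : z.1 2 = α * x.1 2 + β * y.1 2 := by rw [hz]; rfl
  have hx2 := x.2.2
  have hy2 := y.2.2
  have hz2 := z.2.2
  apply Fq_of_klein z.1 hz2
  have hz0 := hz2.ne'
  have hx0 := hx2.ne'
  have hy0 := hy2.ne'
  have key := klein_convex (x.1 1 / x.1 0) (x.1 2 / x.1 0) (y.1 1 / y.1 0) (y.1 2 / y.1 0)
    (α * x.1 0 / z.1 0) (β * y.1 0 / z.1 0) (by positivity) (by positivity)
    (by rw [← add_div, ← e0]; exact div_self hz0)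
    (klein_pos x) (klein_pos y) (klein_of_Fq x.1 hx2 hx) (klein_of_Fq y.1 hy2 hy)
  have f1 : α * x.1 0 / z.1 0 * (x.1 1 / x.1 0) + β * y.1 0 / z.1 0 * (y.1 1 / y.1 0)
      = z.1 1 / z.1 0 := by
    rw [e1]; field_simp
  have f2 : α * x.1 0 / z.1 0 * (x.1 2 / x.1 0) + β * y.1 0 / z.1 0 * (y.1 2 / y.1 0)
      = z.1 2 / z.1 0 := by
    rw [e2]; field_simp
  rwa [f1, f2] at key

lemma exists_unit (x : Hyp) : ∃ n, IsUnitTangent x.1 n := by
  have hx := hyp_sq x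
  have hp : 0 < 1 + x.1 2 ^ 2 := by positivity
  have hs := Real.sqrt_pos.2 hp
  have hss := Real.sq_sqrt hp.le
  refine ⟨![x.1 1 / √(1 + x.1 2 ^ 2), x.1 0 / √(1 + x.1 2 ^ 2), 0], ?_, ?_⟩
  · simp only [mink, Matrix.cons_val_zero, Matrix.cons_val_one, Matrix.cons_val]
    field_simp
    rw [hss]
    linarith
  · simp only [mink, Matrix.cons_val_zero, Matrix.cons_val_one, Matrix.cons_val]
    field_simp
    ring

lemma arcosh_pos' {c : ℝ} (h : 1 < c) : 0 < arcosh c := by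
  by_contra hc
  have h1 := Real.cosh_arcosh h.le
  have h2 : arcosh c = 0 := le_antisymm (not_lt.1 hc) (Real.arcosh_nonneg h.le)
  rw [h2, Real.cosh_zero] at h1
  linarith

lemma convex_Dom : GeodConvex Dom := by
  intro x hx y hy
  have hd : hdist 1 x y = arcosh (-mink x.1 y.1) := by unfold hdist; rw [one_mul]
  rw [hd]
  have h1 := one_le_mink x y
  rcases h1.eq_or_lt with h | h
  · obtain ⟨n, hn⟩ := exists_unit x
    have hxy := eq_of_mink x y h.symm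
    rw [← h]
    have h0 : arcosh 1 = 0 := Real.arcosh_zero
    rw [h0]
    refine ⟨n, hn, by rw [← hxy]; simp [geo], ?_⟩
    intro t ht0 ht1 z hz
    obtain rfl : t = 0 := le_antisymm ht1 ht0
    have : z = x := by apply Subtype.ext; rw [hz]; simp [geo]
    rwa [this]
  · set d := arcosh (-mink x.1 y.1) with hdd
    have hcd : cosh d = -mink x.1 y.1 := Real.cosh_arcosh h1
    have hdpos : 0 < d := arcosh_pos' h
    have hsd : 0 < sinh d := Real.sinh_pos_iff.2 hdpos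
    have hcs := Real.cosh_sq d
    refine ⟨(1 / sinh d) • (y.1 + (-cosh d) • x.1), ⟨?_, ?_⟩, ?_, ?_⟩
    · simp only [mink_smul_left, mink_smul_right, mink_add_left, mink_add_right, x.2.1, y.2.1,
        mink_comm y.1 x.1]
      have : mink x.1 y.1 = -cosh d := by linarith
      rw [this]
      field_simp
      nlinarith
    · simp only [mink_smul_left, mink_smul_right, mink_add_left, mink_add_right, x.2.1]
      have : mink x.1 y.1 = -cosh d := by linarith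
      rw [this]
      ring
    · unfold geo
      rw [smul_smul, mul_one_div_cancel hsd.ne', one_smul]
      module
    · intro t ht0 ht1 z hz
      refine comb_mem x y hx hy (sinh (d - t) / sinh d) (sinh t / sinh d) ?_ ?_ z ?_
      · exact div_nonneg (Real.sinh_nonneg_iff.2 (by linarith)) hsd.le
      · exact div_nonneg (Real.sinh_nonneg_iff.2 ht0) hsd.le
      · rw [hz]
        unfold geo
        have e : sinh (d - t) / sinh d = cosh t - sinh t * cosh d / sinh d := by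
          rw [Real.sinh_sub]; field_simp
        rw [e]
        funext i
        simp only [Pi.add_apply, Pi.smul_apply, smul_eq_mul]
        field_simp
        ring

lemma bounded_Dom (X : Hyp) (hX : X ∈ Dom) : X.1 0 ≤ 5 := by
  change 0 ≤ Fq X.1 at hX
  have h := hyp_sq X
  have h0 := X.2.2
  unfold Fq at hX
  by_contra hc
  push Not at hc
  have h25 : 25 < X.1 0 ^ 2 := by nlinarith
  set A := X.1 0 ^ 2 with hA
  have h1 : X.1 1 ^ 2 = A - 1 - X.1 2 ^ 2 := by linarith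
  rw [h1] at hX
  set p := X.1 2 ^ 2 with hp
  have hp0 : 0 ≤ p := sq_nonneg _
  nlinarith [sq_nonneg (p - A / 10), mul_nonneg hp0 (sub_nonneg.2 h25.le), sq_nonneg (A - 25)]

lemma isCompact_Dom : IsCompact Dom := by
  rw [Subtype.isCompact_iff]
  have e : (Subtype.val '' Dom : Set (Fin 3 → ℝ)) =
      {X | mink X X = -1 ∧ 1 ≤ X 0 ∧ 0 ≤ Fq X} := by
    ext X
    constructor
    · rintro ⟨Y, hY, rfl⟩
      have h := hyp_sq Y
      have h0 := Y.2.2
      exact ⟨Y.2.1, by nlinarith [sq_nonneg (Y.1 1), sq_nonneg (Y.1 2)], hY⟩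
    · rintro ⟨h1, h2, h3⟩
      exact ⟨⟨X, h1, by linarith⟩, h3, rfl⟩
  have hcl : IsClosed (Subtype.val '' Dom : Set (Fin 3 → ℝ)) := by
    rw [e]
    have c1 : IsClosed {X : Fin 3 → ℝ | mink X X = -1} :=
      isClosed_eq (by unfold mink; fun_prop) continuous_const
    have c2 : IsClosed {X : Fin 3 → ℝ | 1 ≤ X 0} :=
      isClosed_le continuous_const (by fun_prop)
    have c3 : IsClosed {X : Fin 3 → ℝ | 0 ≤ Fq X} := isClosed_le continuous_const continuous_Fq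
    exact c1.inter (c2.inter c3)
  refine Metric.isCompact_of_isClosed_isBounded hcl ?_
  rw [isBounded_iff_forall_norm_le]
  refine ⟨5, ?_⟩
  rintro X ⟨Y, hY, rfl⟩
  have h5 := bounded_Dom Y hY
  have h := hyp_sq Y
  have h0 := Y.2.2
  rw [pi_norm_le_iff_of_nonneg (by norm_num)]
  intro i
  rw [Real.norm_eq_abs]
  apply abs_le_of_sq_le_sq _ (by norm_num)
  fin_cases i
  · change Y.1 0 ^ 2 ≤ _; nlinarith
  · change Y.1 1 ^ 2 ≤ _; nlinarith [sq_nonneg (Y.1 2)]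
  · change Y.1 2 ^ 2 ≤ _; nlinarith [sq_nonneg (Y.1 1)]

end Pool.Agent.Q35.HR
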