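import Pool.Agent.Q35.HR.Poly

set_option autoImplicit false
set_option linter.unusedSimpArgs false

/-! The boundary curve in the projective (Klein) model. -/

namespace Pool.Agent.Q35.HR

open Real

noncomputable def sg (t : ℝ) : ℝ := sin t ^ 2
noncomputable def qf (t : ℝ) : ℝ := √(1 - 576/625 * sin t ^ 2)
noncomputable def uf (t : ℝ) : ℝ := 24/25 * sin t
noncomputable def vf (t : ℝ) : ℝ := 24/125 * cos t / qf t
noncomputable def u1f (t : ℝ) : ℝ := 24/25 * cos t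
noncomputable def v1f (t : ℝ) : ℝ := -(24/125 * (49/625)) * sin t / qf t ^ 3
noncomputable def u2f (t : ℝ) : ℝ := -(24/25) * sin t
noncomputable def v2f (t : ℝ) : ℝ :=
  -(24/125 * (49/625)) * cos t * (1 + 2 * (576/625) * sin t ^ 2) / qf t ^ 5

lemma sg_nonneg (t : ℝ) : 0 ≤ sg t := sq_nonneg _
lemma sg_le (t : ℝ) : sg t ≤ 1 := by
  unfold sg; nlinarith [sin_sq_add_cos_sq t, sq_nonneg (cos t)]

lemma cos_sq' (t : ℝ) : cos t ^ 2 = 1 - sg t := by
  unfold sg; linarith [sin_sq_add_cos_sq t]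

lemma qarg_pos (t : ℝ) : 0 < 1 - 576/625 * sin t ^ 2 := by
  have := sg_le t; unfold sg at this; linarith

lemma qf_pos (t : ℝ) : 0 < qf t := Real.sqrt_pos.2 (qarg_pos t)

lemma qf_sq (t : ℝ) : qf t ^ 2 = Qp (sg t) := by
  unfold qf Qp sg; rw [Real.sq_sqrt (qarg_pos t).le]

lemma hasDerivAt_qf (t : ℝ) : HasDerivAt qf (-(576/625) * sin t * cos t / qf t) t := by
  have h1 : HasDerivAt (fun t : ℝ => 1 - 576/625 * sin t ^ 2)
      (-(576/625 * (((2 : ℕ) : ℝ) * sin t ^ (2 - 1) * cos t))) t :=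
    (((hasDerivAt_sin t).fun_pow 2).const_mul (576/625)).const_sub 1
  have h2 : HasDerivAt qf (-(576/625 * (((2 : ℕ) : ℝ) * sin t ^ (2 - 1) * cos t)) / (2 * qf t)) t :=
    h1.sqrt (qarg_pos t).ne'
  have hq := (qf_pos t).ne'
  refine h2.congr_deriv ?_
  push_cast
  field_simp

lemma hasDerivAt_uf (t : ℝ) : HasDerivAt uf (u1f t) t :=
  (hasDerivAt_sin t).const_mul _

lemma hasDerivAt_u1f (t : ℝ) : HasDerivAt u1f (u2f t) t := by
  have := (hasDerivAt_cos t).const_mul (24/25)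
  refine this.congr_deriv ?_
  unfold u2f; ring

lemma hasDerivAt_vf (t : ℝ) : HasDerivAt vf (v1f t) t := by
  have h1 : HasDerivAt (fun t : ℝ => 24/125 * cos t) (24/125 * -sin t) t :=
    (hasDerivAt_cos t).const_mul _
  have h2 := h1.div (hasDerivAt_qf t) (qf_pos t).ne'
  have hq := (qf_pos t).ne'
  refine h2.congr_deriv ?_
  unfold v1f
  have e := qf_sq t
  have e2 : cos t ^ 2 = 1 - sin t ^ 2 := cos_sq' t
  unfold Qp sg at e
  rw [div_eq_div_iff (pow_ne_zero 2 hq) (pow_ne_zero 3 hq)]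
  field_simp
  linear_combination (-625 * sin t) * e + 576 * sin t * e2

lemma hasDerivAt_v1f (t : ℝ) : HasDerivAt v1f (v2f t) t := by
  have h1 : HasDerivAt (fun t : ℝ => -(24/125 * (49/625)) * sin t) (-(24/125 * (49/625)) * cos t) t :=
    (hasDerivAt_sin t).const_mul _
  have h2 := h1.div ((hasDerivAt_qf t).pow 3) (pow_ne_zero 3 (qf_pos t).ne')
  have hq := (qf_pos t).ne'
  refine h2.congr_deriv ?_
  unfold v2f
  have e := qf_sq t
  have e2 : cos t ^ 2 = 1 - sin t ^ 2 := cos_sq' t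
  unfold Qp sg at e
  simp only [Pi.pow_apply]
  rw [div_eq_div_iff (pow_ne_zero 2 (pow_ne_zero 3 hq)) (pow_ne_zero 5 hq)]
  push_cast
  field_simp
  linear_combination (-625 * cos t) * e

/-- The determinant of `(1, u, v)` and its two derivatives. -/
noncomputable def dt (t : ℝ) : ℝ := u1f t * v2f t - v1f t * u2f t
noncomputable def cr (t : ℝ) : ℝ := uf t * v1f t - vf t * u1f t
noncomputable def Wf (t : ℝ) : ℝ := 1 - uf t ^ 2 - vf t ^ 2
noncomputable def Gf (t : ℝ) : ℝ := u1f t ^ 2 + v1f t ^ 2 - cr t ^ 2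

lemma dt_eq (t : ℝ) : dt t = -(576/625 * (1/5) * (49/625)) * Dp (sg t) / qf t ^ 5 := by
  have hq := (qf_pos t).ne'
  have e := qf_sq t
  have e2 : cos t ^ 2 = 1 - sin t ^ 2 := cos_sq' t
  unfold Qp at e
  unfold dt u1f v2f v1f u2f Dp
  unfold sg at *
  field_simp
  rw [e, e2]
  ring

lemma cr_eq (t : ℝ) : cr t = -(576/625 * (1/5)) * (1 - 2 * (576/625) * sg t + 576/625 * sg t ^ 2)
    / qf t ^ 3 := by
  have hq := (qf_pos t).ne'
  have e := qf_sq t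
  have e2 : cos t ^ 2 = 1 - sin t ^ 2 := cos_sq' t
  unfold Qp at e
  unfold cr u1f uf v1f vf
  unfold sg at *
  field_simp
  rw [e, e2]
  ring

lemma Wf_eq (t : ℝ) : Wf t = Vp (sg t) / Qp (sg t) := by
  have hq := (qf_pos t).ne'
  have e2 := cos_sq' t
  have hu : uf t ^ 2 = 576/625 * sg t := by unfold uf sg; ring
  have hv : vf t ^ 2 = 576/15625 * (1 - sg t) / Qp (sg t) := by
    rw [← qf_sq, ← e2]; unfold vf; field_simp; ring
  have hQ := (Qp_pos (sg t) (sg_le t)).ne'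
  unfold Wf
  rw [hu, hv]
  field_simp
  unfold Vp Qp
  ring

lemma Gf_eq (t : ℝ) : Gf t = 576/625 * Hp (sg t) / Qp (sg t) ^ 2 := by
  have hq := (qf_pos t).ne'
  have e2 := cos_sq' t
  have hQ := (Qp_pos (sg t) (sg_le t)).ne'
  have hu : u1f t ^ 2 = 576/625 * (1 - sg t) := by rw [← e2]; unfold u1f; ring
  have hv : v1f t ^ 2 = (24/125 * (49/625)) ^ 2 * sg t / Qp (sg t) ^ 3 := by
    rw [← qf_sq]; unfold v1f sg; field_simp
  have hc : cr t ^ 2 = (576/625 * (1/5)) ^ 2 *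
      (1 - 2 * (576/625) * sg t + 576/625 * sg t ^ 2) ^ 2 / Qp (sg t) ^ 3 := by
    rw [← qf_sq, cr_eq]; field_simp
  unfold Gf
  rw [hu, hv, hc]
  field_simp
  unfold Hp Qp
  ring


lemma Wf_pos (t : ℝ) : 0 < Wf t := by
  rw [Wf_eq]; exact div_pos (Vp_pos _ (sg_nonneg t) (sg_le t)) (Qp_pos _ (sg_le t))

lemma Gf_pos (t : ℝ) : 0 < Gf t := by
  rw [Gf_eq]
  have := Hp_pos _ (sg_nonneg t) (sg_le t)
  have := Qp_pos _ (sg_le t)
  positivity

lemma dt_neg (t : ℝ) : dt t < 0 := by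
  rw [dt_eq]
  have := Dp_pos _ (sg_nonneg t) (sg_le t)
  have := qf_pos t
  rw [neg_mul, neg_div, neg_lt_zero]
  positivity

lemma dt_sq (t : ℝ) : dt t ^ 2 = (576/625 * (1/5) * (49/625)) ^ 2 * Dp (sg t) ^ 2 / Qp (sg t) ^ 5 := by
  have hq := (qf_pos t).ne'
  rw [← qf_sq, dt_eq]; field_simp

/-- The square of the curvature is at most `16`. -/
lemma curv_up (t : ℝ) : dt t ^ 2 * Wf t ^ 3 ≤ 16 * Gf t ^ 3 := by
  have hQ := Qp_pos _ (sg_le t)
  have h := up_all _ (sg_nonneg t) (sg_le t)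
  rw [dt_sq, Wf_eq, Gf_eq]
  have e1 : (576/625 * (1/5) * (49/625)) ^ 2 * Dp (sg t) ^ 2 / Qp (sg t) ^ 5 *
      (Vp (sg t) / Qp (sg t)) ^ 3 = ((576/625) ^ 2 / Qp (sg t) ^ 8) *
      (1/25 * (49/625) ^ 2 * Dp (sg t) ^ 2 * Vp (sg t) ^ 3) := by
    field_simp; ring
  have e2 : 16 * (576/625 * Hp (sg t) / Qp (sg t) ^ 2) ^ 3 = ((576/625) ^ 2 / Qp (sg t) ^ 8) *
      (16 * (576/625) * Qp (sg t) ^ 2 * Hp (sg t) ^ 3) := by
    field_simp
  rw [e1, e2]
  exact mul_le_mul_of_nonneg_left h (by positivity)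

lemma curv_lo (t : ℝ) : Gf t ^ 3 / 10000 ≤ dt t ^ 2 * Wf t ^ 3 := by
  have hQ := Qp_pos _ (sg_le t)
  have h := lo_all _ (sg_nonneg t) (sg_le t)
  rw [dt_sq, Wf_eq, Gf_eq]
  have e1 : (576/625 * (1/5) * (49/625)) ^ 2 * Dp (sg t) ^ 2 / Qp (sg t) ^ 5 *
      (Vp (sg t) / Qp (sg t)) ^ 3 = ((576/625) ^ 2 / Qp (sg t) ^ 8) *
      (1/25 * (49/625) ^ 2 * Dp (sg t) ^ 2 * Vp (sg t) ^ 3) := by
    field_simp; ring
  have e2 : (576/625 * Hp (sg t) / Qp (sg t) ^ 2) ^ 3 / 10000 = ((576/625) ^ 2 / Qp (sg t) ^ 8) *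
      ((576/625)/10000 * Qp (sg t) ^ 2 * Hp (sg t) ^ 3) := by
    field_simp
  rw [e1, e2]
  exact mul_le_mul_of_nonneg_left h (by positivity)

end Pool.Agent.Q35.HR
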