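import Mathlib

set_option autoImplicit false

/-!
# The hyperbolic planes in the hyperboloid model

Points are the vectors `x` of `ℝ³` with `⟨x, x⟩ = -1`, `x₀ > 0`, for the Minkowski form
`⟨x, y⟩ = -x₀y₀ + x₁y₁ + x₂y₂`.  The tangent space at `x` is the orthogonal complement of `x`.
For `ρ > 0` the plane `M_ρ` carries the Riemannian metric `ρ² ⟨v, v⟩`; it is complete, simply
connected, of constant curvature `-1/ρ²`, with infinite injectivity radius.
-/

namespace Pool.Agent.Q35.HR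

/-- The Minkowski form on `ℝ³`. -/
def mink (x y : Fin 3 → ℝ) : ℝ := -(x 0 * y 0) + x 1 * y 1 + x 2 * y 2

/-- The hyperboloid `⟨x, x⟩ = -1`, `x₀ > 0`, with the topology of `ℝ³`. -/
abbrev Hyp : Type := {x : Fin 3 → ℝ // mink x x = -1 ∧ 0 < x 0}

/-- The distance in `M_ρ`. -/
noncomputable def hdist (ρ : ℝ) (x y : Hyp) : ℝ := ρ * Real.arcosh (-mink x.1 y.1)

/-- The geodesic of `M_1` through `x` with initial velocity the unit vector `n`. The unit speed
geodesic of `M_ρ` in the same direction is `r ↦ geo x n (r / ρ)`. -/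
noncomputable def geo (x n : Fin 3 → ℝ) (t : ℝ) : Fin 3 → ℝ :=
  Real.cosh t • x + Real.sinh t • n

/-- `n` is a tangent vector at `x` with `⟨n, n⟩ = 1`. -/
def IsUnitTangent (x n : Fin 3 → ℝ) : Prop := mink n n = 1 ∧ mink x n = 0

/-- `D` is convex: any two of its points are joined by a minimizing geodesic in `D`. -/
def GeodConvex (D : Set Hyp) : Prop :=
  ∀ x ∈ D, ∀ y ∈ D, ∃ n : Fin 3 → ℝ, IsUnitTangent x.1 n ∧
    y.1 = geo x.1 n (hdist 1 x y) ∧
    ∀ t : ℝ, 0 ≤ t → t ≤ hdist 1 x y → ∀ z : Hyp, z.1 = geo x.1 n t → z ∈ D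

/-- The curve `Γ` as a curve in `ℝ³`. -/
def crv (Γ : ℝ → Hyp) (t : ℝ) : Fin 3 → ℝ := (Γ t).1

/-- `D` is a closed set with nonempty interior, and its boundary is the simple closed smooth regular
curve `Γ` (of period `2π`). -/
structure IsDomain (D : Set Hyp) (Γ : ℝ → Hyp) : Prop where
  closed : IsClosed D
  interior_nonempty : (interior D).Nonempty
  frontier_eq : frontier D = Set.range Γ
  smooth : ∀ k : ℕ, ContDiff ℝ k (crv Γ)
  regular : ∀ t, deriv (crv Γ) t ≠ 0
  periodic : ∀ t, Γ (t + 2 * Real.pi) = Γ t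
  injective : Set.InjOn Γ (Set.Ico 0 (2 * Real.pi))

/-- `n` is the inward normal (of length one for `M_1`) of the domain `D` at its boundary point
`Γ t`. -/
def InwardNormal (D : Set Hyp) (Γ : ℝ → Hyp) (t : ℝ) (n : Fin 3 → ℝ) : Prop :=
  IsUnitTangent (Γ t).1 n ∧ mink (deriv (crv Γ) t) n = 0 ∧
    ∃ δ > 0, ∀ r : ℝ, 0 < r → r < δ → ∀ z : Hyp, z.1 = geo (Γ t).1 n r → z ∈ D

/-- The normal curvature in `M_ρ` of the curve `Γ` at `Γ t` with respect to the unit normal `n / ρ`,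
that is, `⟨∇_v v, n / ρ⟩ / ⟨v, v⟩` in the metric of `M_ρ` with `v` the velocity (`∇_v v` is the
tangential part of the acceleration in `ℝ³`). -/
noncomputable def normalCurv (ρ : ℝ) (Γ : ℝ → Hyp) (t : ℝ) (n : Fin 3 → ℝ) : ℝ :=
  mink (deriv (deriv (crv Γ)) t) n / (ρ * mink (deriv (crv Γ) t) (deriv (crv Γ) t))

/-- The ball of radius `R` of `M_ρ` rolls freely inside `D`. -/
def RollsFreely (ρ : ℝ) (D : Set Hyp) (Γ : ℝ → Hyp) (R : ℝ) : Prop :=
  ∀ t n, InwardNormal D Γ t n → ∀ z : Hyp, z.1 = geo (Γ t).1 n (R / ρ) →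
    ∀ y : Hyp, hdist ρ z y ≤ R → y ∈ D

/-- The function `sn_c`. -/
noncomputable def sn (c t : ℝ) : ℝ :=
  if 0 < c then Real.sin (t * √c) / √c
  else if c = 0 then t
  else Real.sinh (t * √(-c)) / √(-c)

/-- The function `ct_c = sn_c' / sn_c`. -/
noncomputable def ct (c t : ℝ) : ℝ := deriv (sn c) t / sn c t

/-- The sphere constraints. -/
def SphereConstraints (c lam : ℝ) : Prop := 0 < lam ∧ (c < 0 → √(-c) < lam)

/-- `R = R_λ`: the radius of the spheres of normal curvature `λ` in the model space. -/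
def IsRadius (c lam R : ℝ) : Prop := 0 < R ∧ (0 < c → R < Real.pi / √c) ∧ ct c R = lam

end Pool.Agent.Q35.HR
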