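import Pool.Agent.Q35.HR.Nor

set_option autoImplicit false
set_option linter.unusedSimpArgs false

/-! The domain is a compact convex domain with boundary the curve. -/

namespace Pool.Agent.Q35.HR

open Real Filter

lemma continuous_Fq : Continuous Fq := by
  unfold Fq; fun_prop

lemma isClosed_Dom : IsClosed Dom :=
  isClosed_le continuous_const (continuous_Fq.comp continuous_subtype_val)

lemma isOpen_pos : IsOpen {X : Hyp | 0 < Fq X.1} :=
  isOpen_lt continuous_const (continuous_Fq.comp continuous_subtype_val)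

lemma pos_subset_interior : {X : Hyp | 0 < Fq X.1} ⊆ interior Dom :=
  interior_maximal (fun _ hX => (le_of_lt hX : (0:ℝ) ≤ _)) isOpen_pos

/-- Every point of the boundary is on the curve. -/
lemma exists_param (X : Hyp) (hX : Fq X.1 = 0) : ∃ t, Gam t = X := by
  obtain ⟨x, h1, h2⟩ := X
  simp only at hX
  simp only [mink] at h1
  simp only [Fq] at hX
  have hne := h2.ne'
  -- Klein coordinates
  set u := x 1 / x 0 with hu
  set v := x 2 / x 0 with hv
  have hw : 1 - u ^ 2 - v ^ 2 = 1 / x 0 ^ 2 := by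
    rw [hu, hv]; field_simp; linarith
  have hw0 : 0 < 1 - u ^ 2 - v ^ 2 := by rw [hw]; positivity
  have hF : v ^ 2 * (1 - u ^ 2) = 1 / 25 * (576/625 - u ^ 2) := by
    rw [hu, hv]; field_simp; linarith
  have hu1 : 0 < 1 - u ^ 2 := by nlinarith [sq_nonneg v]
  have hua : u ^ 2 ≤ 576/625 := by nlinarith [mul_nonneg (sq_nonneg v) hu1.le]
  obtain ⟨t, hs, hc⟩ : ∃ t : ℝ, sin t = 25/24 * u ∧ cos t = 125/24 * v * √(1 - u ^ 2) := by
    have hsum : (125/24 * v * √(1 - u ^ 2)) ^ 2 + (25/24 * u) ^ 2 = 1 := by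
      rw [mul_pow, Real.sq_sqrt hu1.le]
      nlinarith [hF]
    set z : ℂ := ⟨125/24 * v * √(1 - u ^ 2), 25/24 * u⟩ with hz
    have hn : ‖z‖ = 1 := by
      rw [Complex.norm_def, Complex.normSq_apply, hz]
      simp only
      rw [← sq, ← sq, hsum, Real.sqrt_one]
    have hz0 : z ≠ 0 := by
      intro h; rw [h] at hn; simp at hn
    refine ⟨Complex.arg z, ?_, ?_⟩
    · rw [Complex.sin_arg, hn]; simp [hz]
    · rw [Complex.cos_arg hz0, hn]; simp [hz]
  refine ⟨t, ?_⟩
  have hut : uf t = u := by unfold uf; rw [hs]; ring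
  have hqt : qf t = √(1 - u ^ 2) := by
    unfold qf; rw [hs]; congr 1; ring
  have hvt : vf t = v := by
    unfold vf; rw [hqt, hc]
    have : √(1 - u ^ 2) ≠ 0 := (Real.sqrt_pos.2 hu1).ne'
    field_simp
  have hht : hf t = x 0 := by
    unfold hf Wf
    rw [hut, hvt, hw]
    rw [Real.sqrt_div (by norm_num), Real.sqrt_one, Real.sqrt_sq h2.le]
    simp
  apply Subtype.ext
  change hf t • Pf t = x
  rw [hht]
  funext i
  fin_cases i
  · simp [Pf]
  · simp [Pf, hut, hu]; field_simp
  · simp [Pf, hvt, hv]; field_simp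

lemma continuous_geo (X n : Fin 3 → ℝ) : Continuous (geo X n) := by
  unfold geo
  exact (Real.continuous_cosh.smul continuous_const).add (Real.continuous_sinh.smul continuous_const)

/-- The opposite of the inward normal. -/
lemma nu_neg_unit (t : ℝ) : IsUnitTangent (Gam t).1 ((1 / √(Gf t)) • Nf t) := by
  have h := nu_unit t
  unfold nu at h
  unfold IsUnitTangent at *
  simp only [mink_smul_left, mink_smul_right] at *
  constructor
  · linarith [h.1]
  · linarith [h.2]

lemma Gam_not_interior (t : ℝ) : Gam t ∉ interior Dom := by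
  intro h
  obtain ⟨δ, hδ, h5⟩ := leaves t (1 / √(Gf t)) (by
    have := Real.sqrt_pos.2 (Gf_pos t); positivity)
  set g : ℝ → Hyp := fun r => ⟨geo (Gam t).1 ((1 / √(Gf t)) • Nf t) r, geo_mem _ _ (nu_neg_unit t) r⟩
    with hg
  have hgc : Continuous g := (continuous_geo _ _).subtype_mk _
  have hg0 : g 0 = Gam t := by
    apply Subtype.ext
    simp [hg, geo]
  have h1 : g ⁻¹' (interior Dom) ∈ nhds (0 : ℝ) := by
    apply hgc.continuousAt.preimage_mem_nhds
    rw [hg0]
    exact isOpen_interior.mem_nhds h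
  obtain ⟨ε, hε, h2⟩ := Metric.mem_nhds_iff.1 h1
  have hm : 0 < min δ ε := lt_min hδ hε
  have h3 : min δ ε / 2 ∈ g ⁻¹' (interior Dom) := by
    apply h2
    rw [Metric.mem_ball, Real.dist_eq, sub_zero, abs_of_pos (by positivity)]
    linarith [min_le_right δ ε]
  have h4' : g (min δ ε / 2) ∈ Dom := interior_subset h3
  have h4 : 0 ≤ Fq (g (min δ ε / 2)).1 := h4'
  have h6 := h5 (min δ ε / 2) (by positivity) (by linarith [min_le_left δ ε])
  have h7 : (g (min δ ε / 2)).1 = geo (Gam t).1 ((1 / √(Gf t)) • Nf t) (min δ ε / 2) := rfl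
  rw [h7] at h4
  linarith

lemma frontier_Dom : frontier Dom = Set.range Gam := by
  rw [isClosed_Dom.frontier_eq]
  ext X
  constructor
  · rintro ⟨h1, h2⟩
    rcases lt_or_eq_of_le (show (0:ℝ) ≤ Fq X.1 from h1) with h | h
    · exact absurd (pos_subset_interior h) h2
    · exact exists_param X h.symm
  · rintro ⟨t, rfl⟩
    exact ⟨(Fq_Gam t).ge, Gam_not_interior t⟩

lemma Gam_periodic (t : ℝ) : Gam (t + 2 * π) = Gam t := by
  apply Subtype.ext
  change hf (t + 2 * π) • Pf (t + 2 * π) = hf t • Pf t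
  have hu : uf (t + 2 * π) = uf t := by unfold uf; rw [sin_add_two_pi]
  have hq : qf (t + 2 * π) = qf t := by unfold qf; rw [sin_add_two_pi]
  have hv : vf (t + 2 * π) = vf t := by unfold vf; rw [cos_add_two_pi, hq]
  have hh : hf (t + 2 * π) = hf t := by unfold hf Wf; rw [hu, hv]
  rw [hh]; unfold Pf; rw [hu, hv]

lemma Gam_injOn : Set.InjOn Gam (Set.Ico 0 (2 * π)) := by
  intro s hs t ht h
  have h' : hf s • Pf s = hf t • Pf t := congrArg Subtype.val h
  have e0 := congrFun h' 0
  have e1 := congrFun h' 1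
  have e2 := congrFun h' 2
  simp only [Pf, Pi.smul_apply, smul_eq_mul, Matrix.cons_val_zero, Matrix.cons_val_one,
    Matrix.cons_val, mul_one] at e0 e1 e2
  rw [e0] at e1 e2
  have hh := (hf_pos t).ne'
  have hu := mul_left_cancel₀ hh e1
  have hv := mul_left_cancel₀ hh e2
  have hsin : sin s = sin t := by unfold uf at hu; linarith
  have hq : qf s = qf t := by unfold qf; rw [hsin]
  have hcos : cos s = cos t := by
    unfold vf at hv
    rw [hq] at hv
    have := (qf_pos t).ne'
    field_simp at hv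
    linarith
  have h3 : (s : Real.Angle) = (t : Real.Angle) := Real.Angle.cos_sin_inj hcos hsin
  rw [Real.Angle.angle_eq_iff_two_pi_dvd_sub] at h3
  obtain ⟨k, hk⟩ := h3
  have hpi := Real.pi_pos
  have hk0 : k = 0 := by
    have h4 : (-1 : ℝ) < k := by
      by_contra hc
      push Not at hc
      nlinarith [hs.1, ht.2]
    have h5 : (k : ℝ) < 1 := by
      by_contra hc
      push Not at hc
      nlinarith [hs.2, ht.1]
    have h6 : (-1 : ℤ) < k := by exact_mod_cast h4
    have h7 : k < (1 : ℤ) := by exact_mod_cast h5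
    omega
  rw [hk0] at hk
  simp at hk
  linarith

lemma contDiff_crv (k : ℕ) : ContDiff ℝ k (crv Gam) := by
  rw [crv_Gam]
  apply (contDiff_hf k).smul
  rw [contDiff_pi]
  intro i
  fin_cases i
  · exact contDiff_const
  · exact contDiff_uf k
  · exact contDiff_vf k

lemma Gam1_ne (t : ℝ) : Gam1 t ≠ 0 := by
  intro h
  have e0 := congrFun h 0
  have e1 := congrFun h 1
  have e2 := congrFun h 2
  simp only [Gam1, Pf, P1f, Pi.add_apply, Pi.smul_apply, smul_eq_mul, Matrix.cons_val_zero,
    Matrix.cons_val_one, Matrix.cons_val, mul_one, mul_zero, add_zero, Pi.zero_apply] at e0 e1 e2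
  rw [e0, zero_mul, zero_add] at e1 e2
  have hh := (hf_pos t).ne'
  have hu := (mul_eq_zero.1 e1).resolve_left hh
  have hv := (mul_eq_zero.1 e2).resolve_left hh
  have := Gf_pos t
  unfold Gf at this
  rw [hu, hv] at this
  nlinarith [sq_nonneg (cr t)]

lemma isDomain_Dom : IsDomain Dom Gam where
  closed := isClosed_Dom
  interior_nonempty := by
    refine ⟨⟨![1, 0, 0], by simp [mink], by simp⟩, pos_subset_interior ?_⟩
    change 0 < Fq ![1, 0, 0]
    simp [Fq]
  frontier_eq := frontier_Dom
  smooth := contDiff_crv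
  regular := by intro t; rw [deriv_Gam]; exact Gam1_ne t
  periodic := Gam_periodic
  injective := Gam_injOn

end Pool.Agent.Q35.HR
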