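import Pool.Agent.Q35.HR.Curve

set_option autoImplicit false
set_option linter.unusedSimpArgs false

/-! The boundary curve on the hyperboloid. -/

namespace Pool.Agent.Q35.HR

open Real

lemma contDiff_qf (k : ℕ) : ContDiff ℝ k qf := by
  unfold qf
  exact ContDiff.sqrt (by fun_prop) (fun t => (qarg_pos t).ne')

lemma contDiff_uf (k : ℕ) : ContDiff ℝ k uf := by
  unfold uf; fun_prop

lemma contDiff_vf (k : ℕ) : ContDiff ℝ k vf := by
  unfold vf
  exact ContDiff.div (by fun_prop) (contDiff_qf k) (fun t => (qf_pos t).ne')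

lemma contDiff_Wf (k : ℕ) : ContDiff ℝ k Wf := by
  unfold Wf
  exact (contDiff_const.sub ((contDiff_uf k).pow 2)).sub ((contDiff_vf k).pow 2)

noncomputable def hf (t : ℝ) : ℝ := 1 / √(Wf t)

lemma hf_pos (t : ℝ) : 0 < hf t := by
  unfold hf
  exact one_div_pos.2 (Real.sqrt_pos.2 (Wf_pos t))

lemma hf_sq (t : ℝ) : hf t ^ 2 = 1 / Wf t := by
  unfold hf; rw [div_pow, Real.sq_sqrt (Wf_pos t).le]; simp

lemma contDiff_hf (k : ℕ) : ContDiff ℝ k hf := by
  unfold hf
  exact ContDiff.div contDiff_const ((contDiff_Wf k).sqrt (fun t => (Wf_pos t).ne'))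
    (fun t => (Real.sqrt_pos.2 (Wf_pos t)).ne')

noncomputable def Pf (t : ℝ) : Fin 3 → ℝ := ![1, uf t, vf t]
noncomputable def P1f (t : ℝ) : Fin 3 → ℝ := ![0, u1f t, v1f t]
noncomputable def P2f (t : ℝ) : Fin 3 → ℝ := ![0, u2f t, v2f t]

lemma hasDerivAt_Pf (t : ℝ) : HasDerivAt Pf (P1f t) t := by
  rw [hasDerivAt_pi]
  intro i
  fin_cases i
  · exact hasDerivAt_const t (1 : ℝ)
  · exact hasDerivAt_uf t
  · exact hasDerivAt_vf t

lemma hasDerivAt_P1f (t : ℝ) : HasDerivAt P1f (P2f t) t := by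
  rw [hasDerivAt_pi]
  intro i
  fin_cases i
  · exact hasDerivAt_const t (0 : ℝ)
  · exact hasDerivAt_u1f t
  · exact hasDerivAt_v1f t

/-- The curve. -/
noncomputable def Gam (t : ℝ) : Hyp :=
  ⟨hf t • Pf t, by
    constructor
    · have h := hf_sq t
      have hW := (Wf_pos t).ne'
      simp only [mink, Pf, Pi.smul_apply, smul_eq_mul, Matrix.cons_val_zero, Matrix.cons_val_one,
        Matrix.cons_val]
      have e : hf t ^ 2 * Wf t = 1 := by rw [h]; field_simp
      unfold Wf at e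
      linear_combination -e
    · simp only [Pf, Pi.smul_apply, smul_eq_mul, Matrix.cons_val_zero, mul_one]
      exact hf_pos t⟩

lemma crv_Gam : crv Gam = fun t => hf t • Pf t := rfl

noncomputable def h1f : ℝ → ℝ := deriv hf
noncomputable def h2f : ℝ → ℝ := deriv h1f

lemma hasDerivAt_hf (t : ℝ) : HasDerivAt hf (h1f t) t :=
  ((contDiff_hf 1).differentiable (by norm_num) t).hasDerivAt

lemma hasDerivAt_h1f (t : ℝ) : HasDerivAt h1f (h2f t) t := by
  have : ContDiff ℝ 1 (deriv hf) := by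
    have h := contDiff_hf 2
    have := (contDiff_succ_iff_deriv (n := 1) (f := hf)).1 (by exact_mod_cast h)
    exact this.2.2
  exact (this.differentiable (by norm_num) t).hasDerivAt

noncomputable def Gam1 (t : ℝ) : Fin 3 → ℝ := h1f t • Pf t + hf t • P1f t
noncomputable def Gam2 (t : ℝ) : Fin 3 → ℝ := h2f t • Pf t + (2 * h1f t) • P1f t + hf t • P2f t

lemma hasDerivAt_Gam (t : ℝ) : HasDerivAt (crv Gam) (Gam1 t) t := by
  rw [crv_Gam]
  refine ((hasDerivAt_hf t).fun_smul (hasDerivAt_Pf t)).congr_deriv ?_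
  unfold Gam1; abel

lemma deriv_Gam : deriv (crv Gam) = Gam1 := funext fun t => (hasDerivAt_Gam t).deriv

lemma hasDerivAt_Gam1 (t : ℝ) : HasDerivAt Gam1 (Gam2 t) t := by
  unfold Gam1
  refine (((hasDerivAt_h1f t).fun_smul (hasDerivAt_Pf t)).fun_add
    ((hasDerivAt_hf t).fun_smul (hasDerivAt_P1f t))).congr_deriv ?_
  unfold Gam2; module

lemma deriv2_Gam : deriv (deriv (crv Gam)) = Gam2 := by
  rw [deriv_Gam]; exact funext fun t => (hasDerivAt_Gam1 t).deriv

end Pool.Agent.Q35.HR
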