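import Pool.Agent.Q35.HR.Conv

set_option autoImplicit false
set_option linter.unusedSimpArgs false

/-! Curvature of the boundary, balls, and the main theorem. -/

namespace Pool.Agent.Q35.HR

open Real Filter

lemma h1f_eq (t : ℝ) : h1f t * Wf t = hf t * (uf t * u1f t + vf t * v1f t) := by
  have h1 := hasDerivAt_hf t
  have h2 : HasDerivAt Wf (-(2 * uf t * u1f t) - 2 * vf t * v1f t) t := by
    have := (((hasDerivAt_uf t).fun_pow 2).const_sub 1).fun_sub ((hasDerivAt_vf t).fun_pow 2)
    refine HasDerivAt.congr_deriv (f := Wf) this ?_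
    push_cast; ring
  have h3 := (h1.fun_pow 2).fun_mul h2
  have h4 : (fun x => hf x ^ 2 * Wf x) = fun _ => (1 : ℝ) := by
    funext x; rw [hf_sq]; field_simp [(Wf_pos x).ne']
  rw [h4] at h3
  have h5 := h3.unique (hasDerivAt_const t (1 : ℝ))
  have hh := (hf_pos t).ne'
  push_cast at h5
  have h6 : hf t * (h1f t * Wf t) = hf t * (hf t * (uf t * u1f t + vf t * v1f t)) := by
    linear_combination h5 / 2
  exact mul_left_cancel₀ hh h6

lemma mink_Gam1 (t : ℝ) : mink (Gam1 t) (Gam1 t) = Gf t / Wf t ^ 2 := by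
  have hW := (Wf_pos t).ne'
  have h1 := h1f_eq t
  have h2 := hf_sq t
  have h3 : h1f t = hf t * (uf t * u1f t + vf t * v1f t) / Wf t := by field_simp; linarith
  have e : mink (Gam1 t) (Gam1 t) = -(h1f t ^ 2 * Wf t) +
      2 * h1f t * hf t * (uf t * u1f t + vf t * v1f t) + hf t ^ 2 * (u1f t ^ 2 + v1f t ^ 2) := by
    simp only [mink, Gam1, Pf, P1f, Pi.add_apply, Pi.smul_apply, smul_eq_mul,
      Matrix.cons_val_zero, Matrix.cons_val_one, Matrix.cons_val, Wf]
    ring
  rw [e, h3]
  have e2 : -((hf t * (uf t * u1f t + vf t * v1f t) / Wf t) ^ 2 * Wf t) +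
      2 * (hf t * (uf t * u1f t + vf t * v1f t) / Wf t) * hf t * (uf t * u1f t + vf t * v1f t) +
      hf t ^ 2 * (u1f t ^ 2 + v1f t ^ 2) =
      hf t ^ 2 * ((uf t * u1f t + vf t * v1f t) ^ 2 + Wf t * (u1f t ^ 2 + v1f t ^ 2)) / Wf t := by
    field_simp; ring
  rw [e2, h2]
  have e3 : (uf t * u1f t + vf t * v1f t) ^ 2 + Wf t * (u1f t ^ 2 + v1f t ^ 2) = Gf t := by
    unfold Gf cr Wf; ring
  rw [e3]
  field_simp

lemma mink_Gam2 (t : ℝ) : mink (Gam2 t) (nu t) = hf t * (-(dt t)) / √(Gf t) := by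
  unfold Gam2 nu
  simp only [mink_smul_left, mink_smul_right, mink_add_left, mink_P_N, mink_P1_N, mink_P2_N]
  have := (Real.sqrt_pos.2 (Gf_pos t)).ne'
  field_simp
  ring

/-- the curvature for `ρ = 1` -/
noncomputable def kap (t : ℝ) : ℝ := mink (Gam2 t) (nu t) / mink (Gam1 t) (Gam1 t)

lemma normalCurv_eq (ρ t : ℝ) : normalCurv ρ Gam t (nu t) = kap t / ρ := by
  unfold normalCurv kap
  rw [deriv2_Gam, deriv_Gam, div_div, mul_comm ρ]

lemma kap_pos (t : ℝ) : 0 < kap t := by
  unfold kap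
  rw [mink_Gam1, mink_Gam2]
  have := Wf_pos t
  have hG := Gf_pos t
  have := Real.sqrt_pos.2 hG
  have := hf_pos t
  have := neg_pos.2 (dt_neg t)
  positivity

lemma kap_sq (t : ℝ) : kap t ^ 2 * Gf t ^ 3 = dt t ^ 2 * Wf t ^ 3 := by
  unfold kap
  rw [mink_Gam1, mink_Gam2]
  have hW := (Wf_pos t).ne'
  have hG := Gf_pos t
  have hG' := hG.ne'
  have hs := (Real.sqrt_pos.2 hG).ne'
  have hss := Real.sq_sqrt hG.le
  have e : (hf t * -dt t / √(Gf t) / (Gf t / Wf t ^ 2)) ^ 2 * Gf t ^ 3 =
      hf t ^ 2 * dt t ^ 2 * Wf t ^ 4 * Gf t / √(Gf t) ^ 2 := by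
    field_simp
  rw [e, hss, hf_sq]
  field_simp

lemma kap_le (t : ℝ) : kap t ≤ 4 := by
  have h := curv_up t
  rw [← kap_sq] at h
  have hG : 0 < Gf t ^ 3 := pow_pos (Gf_pos t) 3
  have := le_of_mul_le_mul_right h hG
  nlinarith [kap_pos t]

lemma kap_ge (t : ℝ) : 1/100 ≤ kap t := by
  have h := curv_lo t
  rw [← kap_sq] at h
  have hG : 0 < Gf t ^ 3 := pow_pos (Gf_pos t) 3
  have : (1/10000) * Gf t ^ 3 ≤ kap t ^ 2 * Gf t ^ 3 := by linarith
  have := le_of_mul_le_mul_right this hG
  nlinarith [kap_pos t]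

/-- The point `Γ 0` and the inward normal there. -/
lemma Gam_zero : (Gam 0).1 = ![hf 0, 0, hf 0 * (24/125)] := by
  change hf 0 • Pf 0 = _
  have hq : qf 0 = 1 := by simp [qf]
  have hu : uf 0 = 0 := by simp [uf]
  have hv : vf 0 = 24/125 := by simp [vf, hq]
  unfold Pf
  rw [hu, hv]
  funext i; fin_cases i <;> simp

lemma hf_zero : hf 0 ^ 2 * (1 - (24/125) ^ 2) = 1 := by
  have hq : qf 0 = 1 := by simp [qf]
  have hu : uf 0 = 0 := by simp [uf]
  have hv : vf 0 = 24/125 := by simp [vf, hq]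
  rw [hf_sq]
  unfold Wf
  rw [hu, hv]; norm_num

lemma nu_zero : nu 0 = ![-(hf 0 * (24/125)), 0, -hf 0] := by
  have hq : qf 0 = 1 := by simp [qf]
  have hu : uf 0 = 0 := by simp [uf]
  have hv : vf 0 = 24/125 := by simp [vf, hq]
  have hu1 : u1f 0 = 24/25 := by simp [u1f]
  have hv1 : v1f 0 = 0 := by simp [v1f]
  have hc : cr 0 = -(24/125 * (24/25)) := by unfold cr; rw [hu, hv, hu1]; ring
  have hG : Gf 0 = (24/25) ^ 2 * Wf 0 := by
    unfold Gf Wf; rw [hu1, hv1, hc, hu, hv]; norm_num
  have hs : √(Gf 0) = 24/25 * √(Wf 0) := by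
    rw [hG, Real.sqrt_mul (by norm_num), Real.sqrt_sq (by norm_num)]
  have hW := (Real.sqrt_pos.2 (Wf_pos 0)).ne'
  unfold nu Nf hf
  rw [hs, hc, hv1, hu1]
  funext i
  fin_cases i
  · simp; field_simp
  · simp
  · simp; field_simp

lemma not_rolls (ρ R : ℝ) (hρ : 0 < ρ) (hR : 6/25 ≤ R / ρ) : ¬ RollsFreely ρ Dom Gam R := by
  intro h
  have hin : InwardNormal Dom Gam 0 (nu 0) := (inward_iff 0 _).2 rfl
  set r := R / ρ with hr
  have hrp : 0 < r := by linarith
  have hRr : R = ρ * r := by rw [hr]; field_simp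
  have h1 := h 0 (nu 0) hin ⟨geo (Gam 0).1 (nu 0) r, geo_mem _ _ (nu_unit 0) r⟩ rfl
    ⟨geo (Gam 0).1 (nu 0) (2 * r), geo_mem _ _ (nu_unit 0) (2 * r)⟩ (by
      unfold hdist
      have e : -mink (geo (Gam 0).1 (nu 0) r) (geo (Gam 0).1 (nu 0) (2 * r)) = cosh r := by
        obtain ⟨n1, n2⟩ := nu_unit 0
        unfold geo
        simp only [mink_add_left, mink_add_right, mink_smul_left, mink_smul_right, n1, n2,
          mink_comm (nu 0) (Gam 0).1, (Gam 0).2.1]
        rw [Real.cosh_two_mul, Real.sinh_two_mul]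
        have := Real.cosh_sq r
        linear_combination (cosh r) * this
      rw [e, Real.arcosh_cosh hrp.le]
      exact hRr.ge)
  change 0 ≤ Fq (geo (Gam 0).1 (nu 0) (2 * r)) at h1
  -- the Klein coordinate of the opposite point
  set C := cosh (2 * r) with hC
  set S := sinh (2 * r) with hS
  have hCS : C ^ 2 = S ^ 2 + 1 := Real.cosh_sq (2 * r)
  have hCp : 0 < C := Real.cosh_pos _
  have hSlow : 12/25 ≤ S := by
    have : 2 * r ≤ sinh (2 * r) := Real.self_le_sinh_iff.2 (by linarith)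
    linarith
  have hg : geo (Gam 0).1 (nu 0) (2 * r) =
      hf 0 • ![C - S * (24/125), 0, C * (24/125) - S] := by
    unfold geo
    rw [Gam_zero, nu_zero, ← hC, ← hS]
    funext i
    fin_cases i
    · simp; ring
    · simp
    · simp; ring
  rw [hg, Fq_smul] at h1
  have hh : 0 < hf 0 ^ 4 := pow_pos (hf_pos 0) 4
  have h2 : 0 ≤ Fq ![C - S * (24/125), 0, C * (24/125) - S] := by
    by_contra hc
    push Not at hc
    have := mul_neg_of_pos_of_neg hh hc
    linarith
  simp only [Fq, Matrix.cons_val_zero, Matrix.cons_val_one, Matrix.cons_val] at h2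
  have hx0 : 0 < C - S * (24/125) := by nlinarith
  have h3 : (C * (24/125) - S) ^ 2 ≤ 576/15625 * (C - S * (24/125)) ^ 2 := by
    have h4 : 0 < (C - S * (24/125)) ^ 2 := by positivity
    by_contra hc
    push Not at hc
    have := mul_pos h4 (sub_pos.2 hc)
    nlinarith
  -- `S (1 + m²) > 2 m C` contradicts the inequality
  have h5 : S * (1 + (24/125) ^ 2) > 2 * (24/125) * C := by
    have : (2 * (24/125) * C) ^ 2 < (S * (1 + (24/125) ^ 2)) ^ 2 := by
      rw [mul_pow, hCS]
      nlinarith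
    exact lt_of_pow_lt_pow_left₀ 2 (by positivity) this
  have h6 : (24/125) * (C - S * (24/125)) < S - C * (24/125) := by nlinarith
  have h7 : 0 < (24/125) * (C - S * (24/125)) := by positivity
  have h8 : ((24/125) * (C - S * (24/125))) ^ 2 < (S - C * (24/125)) ^ 2 := by
    apply pow_lt_pow_left₀ h6 h7.le (by norm_num)
  nlinarith


lemma sinh_le_mul_cosh {x : ℝ} (hx : 0 ≤ x) : sinh x ≤ x * cosh x := by
  have hd : ∀ y : ℝ, HasDerivAt (fun y => y * cosh y - sinh y) (y * sinh y) y := by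
    intro y
    have := ((hasDerivAt_id y).fun_mul (Real.hasDerivAt_cosh y)).fun_sub (Real.hasDerivAt_sinh y)
    refine HasDerivAt.congr_deriv this ?_
    simp
  have hm : MonotoneOn (fun y => y * cosh y - sinh y) (Set.Ici (0 : ℝ)) := by
    apply monotoneOn_of_deriv_nonneg (convex_Ici 0)
    · exact fun y _ => (hd y).continuousAt.continuousWithinAt
    · exact fun y _ => (hd y).differentiableAt.differentiableWithinAt
    · intro y hy
      rw [interior_Ici] at hy
      rw [(hd y).deriv]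
      exact mul_nonneg (le_of_lt hy) (Real.sinh_nonneg_iff.2 (le_of_lt hy))
  have := hm (Set.mem_Ici.2 le_rfl) (Set.mem_Ici.2 hx) hx
  simp at this
  linarith

lemma ct_pos' (c t : ℝ) (hc : 0 < c) (hs : sin (t * √c) ≠ 0) :
    ct c t = √c * (cos (t * √c) / sin (t * √c)) := by
  have hq := (Real.sqrt_pos.2 hc).ne'
  have e : sn c = fun t => sin (t * √c) / √c := by funext t; simp [sn, hc]
  have hd : HasDerivAt (sn c) (cos (t * √c)) t := by
    rw [e]
    have := (((hasDerivAt_id t).mul_const √c).sin).div_const √c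
    refine HasDerivAt.congr_deriv this ?_
    simp; field_simp
  unfold ct
  rw [hd.deriv, e]
  field_simp

lemma ct_zero' (t : ℝ) : ct 0 t = 1 / t := by
  have e : sn 0 = fun t => t := by funext t; simp [sn]
  unfold ct
  rw [e]; simp

lemma ct_neg' (c t : ℝ) (hc : c < 0) (hs : sinh (t * √(-c)) ≠ 0) :
    ct c t = √(-c) * (cosh (t * √(-c)) / sinh (t * √(-c))) := by
  have hq := (Real.sqrt_pos.2 (neg_pos.2 hc)).ne'
  have e : sn c = fun t => sinh (t * √(-c)) / √(-c) := by
    funext t; simp [sn, hc.ne, not_lt.2 hc.le]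
  have hd : HasDerivAt (sn c) (cosh (t * √(-c))) t := by
    rw [e]
    have := (((hasDerivAt_id t).mul_const √(-c)).sinh).div_const √(-c)
    refine HasDerivAt.congr_deriv this ?_
    simp; field_simp
  unfold ct
  rw [hd.deriv, e]
  field_simp

/-- The parameters for every `c`. -/
lemma params (c : ℝ) : ∃ ρ : ℝ, 0 < ρ ∧ -1 / ρ ^ 2 ≤ c ∧ SphereConstraints c (4 / ρ) ∧
    (c < 0 → √(-c) ≤ 1/100 / ρ) ∧ (∃ R, IsRadius c (4 / ρ) R) ∧
    ∀ R, IsRadius c (4 / ρ) R → 6/25 ≤ R / ρ := by
  rcases lt_trichotomy c 0 with hc | rfl | hc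
  · have hw := Real.sqrt_pos.2 (neg_pos.2 hc)
    have hws := Real.sq_sqrt (neg_pos.2 hc).le
    set w := √(-c) with hwdef
    refine ⟨1 / (100 * w), by positivity, ?_, ⟨by positivity, ?_⟩, ?_, ?_, ?_⟩
    · have : -1 / (1 / (100 * w)) ^ 2 = -(10000 * w ^ 2) := by field_simp; norm_num
      rw [this, hws]; linarith
    · intro _
      have : 4 / (1 / (100 * w)) = 400 * w := by field_simp; norm_num
      rw [this]; linarith
    · intro _
      have : (1:ℝ) / 100 / (1 / (100 * w)) = w := by field_simp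
      rw [this]
    · have h1 : (0:ℝ) < 1 / √159999 := by positivity
      have hx : 0 < arsinh (1 / √159999) := Real.arsinh_pos_iff.2 h1
      refine ⟨arsinh (1 / √159999) / w, by positivity, fun h => absurd h (not_lt.2 hc.le), ?_⟩
      have e : arsinh (1 / √159999) / w * w = arsinh (1 / √159999) := by field_simp
      have hsin : sinh (arsinh (1 / √159999) / w * √(-c)) = 1 / √159999 := by
        rw [← hwdef, e, Real.sinh_arsinh]
      have hcos : cosh (arsinh (1 / √159999) / w * √(-c)) = 400 * (1 / √159999) := by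
        rw [← hwdef, e, Real.cosh_arsinh]
        rw [show (1:ℝ) + (1 / √159999) ^ 2 = (400 * (1 / √159999)) ^ 2 by
          rw [mul_pow, div_pow, Real.sq_sqrt (by norm_num)]; norm_num]
        rw [Real.sqrt_sq (by positivity)]
      rw [ct_neg' c _ hc (by rw [hsin]; positivity), hsin, hcos, ← hwdef]
      field_simp
      norm_num
    · rintro R ⟨hR, -, hct⟩
      have hx : 0 < R * w := by positivity
      have hsx : 0 < sinh (R * w) := Real.sinh_pos_iff.2 hx
      rw [ct_neg' c R hc (by rw [← hwdef]; exact hsx.ne'), ← hwdef] at hct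
      have h400 : cosh (R * w) = 400 * sinh (R * w) := by
        have : 4 / (1 / (100 * w)) = 400 * w := by field_simp; norm_num
        rw [this] at hct
        have h2 : cosh (R * w) / sinh (R * w) = 400 := by
          have : w * (cosh (R * w) / sinh (R * w)) = w * 400 := by linarith
          exact mul_left_cancel₀ hw.ne' this
        field_simp at h2
        linarith
      have h3 := sinh_le_mul_cosh hx.le
      rw [h400] at h3
      have h4 : 1 ≤ 400 * (R * w) := by
        have : 1 * sinh (R * w) ≤ (400 * (R * w)) * sinh (R * w) := by linarith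
        exact le_of_mul_le_mul_right this hsx
      have : R / (1 / (100 * w)) = 100 * (R * w) := by field_simp
      rw [this]; linarith
  · refine ⟨1, one_pos, by norm_num, ⟨by norm_num, fun h => absurd h (lt_irrefl _)⟩,
      fun h => absurd h (lt_irrefl _), ⟨1/4, by norm_num, fun h => absurd h (lt_irrefl _), ?_⟩, ?_⟩
    · rw [ct_zero']; norm_num
    · rintro R ⟨hR, -, hct⟩
      rw [ct_zero'] at hct
      have : R = 1/4 := by
        rw [div_one] at hct
        field_simp at hct
        linarith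
      rw [this]; norm_num
  · have hw := Real.sqrt_pos.2 hc
    have hws := Real.sq_sqrt hc.le
    set w := √c with hwdef
    refine ⟨1 / w, by positivity, ?_, ⟨by positivity, fun h => absurd h (not_lt.2 hc.le)⟩,
      fun h => absurd h (not_lt.2 hc.le), ?_, ?_⟩
    · have : -1 / (1 / w) ^ 2 = -(w ^ 2) := by field_simp
      rw [this, hws]; linarith
    · have hx : 0 < arctan (1/4) := Real.arctan_pos.2 (by norm_num)
      have hx2 := Real.arctan_lt_pi_div_two (1/4)
      have hcp := Real.cos_arctan_pos (1/4)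
      have ht := Real.tan_arctan (1/4)
      rw [Real.tan_eq_sin_div_cos] at ht
      have hs : sin (arctan (1/4)) = cos (arctan (1/4)) / 4 := by
        field_simp at ht; linarith
      refine ⟨arctan (1/4) / w, by positivity, fun _ => ?_, ?_⟩
      · rw [← hwdef]
        apply div_lt_div_of_pos_right _ hw
        linarith [Real.pi_pos]
      · have e : arctan (1/4) / w * w = arctan (1/4) := by field_simp
        rw [ct_pos' c _ hc (by rw [← hwdef, e, hs]; positivity), ← hwdef, e, hs]
        field_simp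
    · rintro R ⟨hR, hRpi, hct⟩
      have hx : 0 < R * w := by positivity
      have hx2 : R * w < π := by
        have := hRpi hc
        rwa [← hwdef, lt_div_iff₀ hw] at this
      have hsx : 0 < sin (R * w) := Real.sin_pos_of_pos_of_lt_pi hx hx2
      rw [ct_pos' c R hc (by rw [← hwdef]; exact hsx.ne'), ← hwdef] at hct
      have h4 : cos (R * w) = 4 * sin (R * w) := by
        have : 4 / (1 / w) = 4 * w := by field_simp
        rw [this] at hct
        have h2 : cos (R * w) / sin (R * w) = 4 := by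
          have : w * (cos (R * w) / sin (R * w)) = w * 4 := by linarith
          exact mul_left_cancel₀ hw.ne' this
        field_simp at h2
        linarith
      have h5 := Real.sin_sq_add_cos_sq (R * w)
      rw [h4] at h5
      have h6 : 6/25 ≤ sin (R * w) := by nlinarith
      have h7 := Real.sin_lt hx
      have : R / (1 / w) = R * w := by field_simp
      rw [this]; linarith

theorem main (c : ℝ) : ∃ (ρ lam : ℝ) (D : Set Hyp) (Γ : ℝ → Hyp),
    0 < ρ ∧ -1 / ρ ^ 2 ≤ c ∧ SphereConstraints c lam ∧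
    IsDomain D Γ ∧ IsCompact D ∧ GeodConvex D ∧
    (∀ t, ∃! n, InwardNormal D Γ t n) ∧
    (∀ t n, InwardNormal D Γ t n →
      0 < normalCurv ρ Γ t n ∧ normalCurv ρ Γ t n ≤ lam ∧
      (c < 0 → √(-c) ≤ normalCurv ρ Γ t n)) ∧
    (∃ R, IsRadius c lam R) ∧
    ∀ R, IsRadius c lam R → ¬ RollsFreely ρ D Γ R := by
  obtain ⟨ρ, hρ, h1, h2, h3, h4, h5⟩ := params c
  refine ⟨ρ, 4 / ρ, Dom, Gam, hρ, h1, h2, isDomain_Dom, isCompact_Dom, convex_Dom, ?_, ?_, h4,
    fun R hR => not_rolls ρ R hρ (h5 R hR)⟩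
  · intro t
    exact ⟨nu t, (inward_iff t _).2 rfl, fun n hn => (inward_iff t n).1 hn⟩
  · intro t n hn
    rw [(inward_iff t n).1 hn, normalCurv_eq]
    have k1 := kap_pos t
    have k2 := kap_le t
    have k3 := kap_ge t
    refine ⟨by positivity, by gcongr, fun hc => (h3 hc).trans (by gcongr)⟩

end Pool.Agent.Q35.HR
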