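import Pool.Agent.Q35.HR.Gam

set_option autoImplicit false
set_option linter.unusedSimpArgs false

/-! The normals of the curve and the domain. -/

namespace Pool.Agent.Q35.HR

open Real Filter

noncomputable def Nf (t : ℝ) : Fin 3 → ℝ := ![-(cr t), -v1f t, u1f t]

lemma mink_P_N (t : ℝ) : mink (Pf t) (Nf t) = 0 := by
  simp only [mink, Pf, Nf, Matrix.cons_val_zero, Matrix.cons_val_one, Matrix.cons_val, cr]; ring

lemma mink_P1_N (t : ℝ) : mink (P1f t) (Nf t) = 0 := by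
  simp only [mink, P1f, Nf, Matrix.cons_val_zero, Matrix.cons_val_one, Matrix.cons_val, cr]; ring

lemma mink_N_N (t : ℝ) : mink (Nf t) (Nf t) = Gf t := by
  simp only [mink, Gf, Nf, Matrix.cons_val_zero, Matrix.cons_val_one, Matrix.cons_val]; ring

lemma mink_P2_N (t : ℝ) : mink (P2f t) (Nf t) = dt t := by
  simp only [mink, P2f, dt, Nf, Matrix.cons_val_zero, Matrix.cons_val_one, Matrix.cons_val]; ring

lemma mink_smul_left (c : ℝ) (x y : Fin 3 → ℝ) : mink (c • x) y = c * mink x y := by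
  simp only [mink, Pi.smul_apply, smul_eq_mul]; ring

lemma mink_smul_right (c : ℝ) (x y : Fin 3 → ℝ) : mink x (c • y) = c * mink x y := by
  simp only [mink, Pi.smul_apply, smul_eq_mul]; ring

lemma mink_add_left (x y z : Fin 3 → ℝ) : mink (x + y) z = mink x z + mink y z := by
  simp only [mink, Pi.add_apply]; ring

lemma mink_add_right (x y z : Fin 3 → ℝ) : mink x (y + z) = mink x y + mink x z := by
  simp only [mink, Pi.add_apply]; ring

lemma mink_comm (x y : Fin 3 → ℝ) : mink x y = mink y x := by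
  simp only [mink]; ring

lemma normal_form (t : ℝ) (n : Fin 3 → ℝ) (h0 : mink (Pf t) n = 0) (h1 : mink (P1f t) n = 0) :
    ∃ τ : ℝ, n = τ • Nf t := by
  simp only [mink, Pf, P1f, Matrix.cons_val_zero, Matrix.cons_val_one, Matrix.cons_val] at h0 h1
  have hp : 0 < u1f t ^ 2 + v1f t ^ 2 := by
    have := Gf_pos t; unfold Gf at this; nlinarith [sq_nonneg (cr t)]
  have hp' := hp.ne'
  refine ⟨(u1f t * n 2 - v1f t * n 1) / (u1f t ^ 2 + v1f t ^ 2), ?_⟩
  have e1 : n 1 = (u1f t * n 2 - v1f t * n 1) / (u1f t ^ 2 + v1f t ^ 2) * (-v1f t) := by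
    field_simp
    linear_combination (u1f t) * h1
  have e2 : n 2 = (u1f t * n 2 - v1f t * n 1) / (u1f t ^ 2 + v1f t ^ 2) * (u1f t) := by
    field_simp
    linear_combination (v1f t) * h1
  have e0 : n 0 = (u1f t * n 2 - v1f t * n 1) / (u1f t ^ 2 + v1f t ^ 2) * (-(cr t)) := by
    have : n 0 = uf t * n 1 + vf t * n 2 := by linarith
    rw [this]
    nth_rewrite 1 [e1]
    nth_rewrite 2 [e2]
    unfold cr
    ring
  funext i
  fin_cases i
  · exact e0
  · exact e1
  · exact e2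

/-- The quartic form defining the domain. -/
noncomputable def Fq (X : Fin 3 → ℝ) : ℝ :=
  X 0 ^ 2 * (576 * X 0 ^ 2 - 625 * X 1 ^ 2) / 15625 - X 2 ^ 2 * (X 0 ^ 2 - X 1 ^ 2)

noncomputable def dFq (X m : Fin 3 → ℝ) : ℝ :=
  ((4 * 576 * X 0 ^ 3 - 2 * 625 * X 0 * X 1 ^ 2) / 15625 - 2 * X 0 * X 2 ^ 2) * m 0 +
  (-(2 * 625 * X 0 ^ 2 * X 1) / 15625 + 2 * X 1 * X 2 ^ 2) * m 1 +
  (-(2 * X 2 * (X 0 ^ 2 - X 1 ^ 2))) * m 2

lemma Fq_smul (c : ℝ) (X : Fin 3 → ℝ) : Fq (c • X) = c ^ 4 * Fq X := by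
  simp only [Fq, Pi.smul_apply, smul_eq_mul]; ring

lemma dFq_smul (c d : ℝ) (X m : Fin 3 → ℝ) : dFq (c • X) (d • m) = c ^ 3 * d * dFq X m := by
  simp only [dFq, Pi.smul_apply, smul_eq_mul]; ring

lemma Fq_Pf (t : ℝ) : Fq (Pf t) = 0 := by
  have hq := (qf_pos t).ne'
  have e := qf_sq t
  have e2 : cos t ^ 2 = 1 - sin t ^ 2 := cos_sq' t
  unfold Qp sg at e
  simp only [Fq, Pf, Matrix.cons_val_zero, Matrix.cons_val_one, Matrix.cons_val, uf, vf]
  field_simp
  rw [e, e2]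
  ring

lemma dFq_Pf (t : ℝ) (m : Fin 3 → ℝ) : dFq (Pf t) m = -(2/5) * qf t * mink (Nf t) m := by
  have hq := (qf_pos t).ne'
  have e := qf_sq t
  have e2 : cos t ^ 2 = 1 - sin t ^ 2 := cos_sq' t
  unfold Qp sg at e
  have c0 : (4 * 576 * (1:ℝ) ^ 3 - 2 * 625 * 1 * uf t ^ 2) / 15625 - 2 * 1 * vf t ^ 2
      = -(2/5) * qf t * cr t := by
    rw [cr_eq]
    unfold uf vf sg
    field_simp
    rw [e, e2]
    ring
  have c1 : -(2 * 625 * (1:ℝ) ^ 2 * uf t) / 15625 + 2 * uf t * vf t ^ 2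
      = -(2/5) * qf t * (-(v1f t)) := by
    unfold uf vf v1f
    field_simp
    rw [e2, e]
    ring
  have c2 : -(2 * vf t * ((1:ℝ) ^ 2 - uf t ^ 2)) = -(2/5) * qf t * u1f t := by
    unfold uf vf u1f
    field_simp
    rw [e]
    ring
  simp only [dFq, mink, Pf, Nf, Matrix.cons_val_zero, Matrix.cons_val_one, Matrix.cons_val]
  rw [c0, c1, c2]
  ring


lemma hasDerivAt_geo (X n : Fin 3 → ℝ) :
    HasDerivAt (fun r => Fq (geo X n r)) (dFq X n) 0 := by
  have hc : ∀ i, HasDerivAt (fun r => geo X n r i) (n i) 0 := by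
    intro i
    have h1 : HasDerivAt (fun r : ℝ => cosh r * X i + sinh r * n i)
        (sinh 0 * X i + cosh 0 * n i) 0 :=
      ((Real.hasDerivAt_cosh 0).mul_const _).add ((Real.hasDerivAt_sinh 0).mul_const _)
    refine HasDerivAt.congr_deriv ?_ (show sinh 0 * X i + cosh 0 * n i = n i by simp)
    exact h1
  have h := ((((hc 0).fun_pow 2).fun_mul ((((hc 0).fun_pow 2).const_mul 576).fun_sub
    (((hc 1).fun_pow 2).const_mul 625))).div_const 15625).fun_sub
    (((hc 2).fun_pow 2).fun_mul (((hc 0).fun_pow 2).fun_sub ((hc 1).fun_pow 2)))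
  refine HasDerivAt.congr_deriv (f := fun r => Fq (geo X n r)) h ?_
  have g : ∀ i, geo X n 0 i = X i := by intro i; simp [geo]
  simp only [g, dFq]
  push_cast
  ring

lemma eventually_pos (f : ℝ → ℝ) (d : ℝ) (hf : HasDerivAt f d 0) (h0 : f 0 = 0) (hd : 0 < d) :
    ∃ δ > 0, ∀ r, 0 < r → r < δ → 0 < f r := by
  have h := (hasDerivAt_iff_tendsto_slope.1 hf).eventually (lt_mem_nhds hd)
  rw [eventually_nhdsWithin_iff, Metric.eventually_nhds_iff] at h
  obtain ⟨δ, hδ, h⟩ := h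
  refine ⟨δ, hδ, fun r hr hr' => ?_⟩
  have := h (y := r) (by rw [Real.dist_eq, sub_zero, abs_of_pos hr]; exact hr') (by simpa using hr.ne')
  rw [slope_def_field, h0, sub_zero, sub_zero] at this
  exact (div_pos_iff_of_pos_right hr).1 this

lemma geo_mem (x : Hyp) (n : Fin 3 → ℝ) (hn : IsUnitTangent x.1 n) (r : ℝ) :
    mink (geo x.1 n r) (geo x.1 n r) = -1 ∧ 0 < geo x.1 n r 0 := by
  obtain ⟨h1, h2⟩ := hn
  have hx := x.2
  constructor
  · unfold geo
    simp only [mink_add_left, mink_add_right, mink_smul_left, mink_smul_right, h1, h2,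
      mink_comm n x.1, hx.1]
    have := Real.cosh_sq r
    linear_combination -this
  · have hx1 := hx.1
    have hx2 := hx.2
    simp only [mink] at h1 h2 hx1
    simp only [geo, Pi.add_apply, Pi.smul_apply, smul_eq_mul]
    have hn0 : |n 0| < x.1 0 := by
      apply abs_lt_of_sq_lt_sq _ hx2.le
      have cs : (x.1 0 * n 0) ^ 2 ≤ (x.1 1 ^ 2 + x.1 2 ^ 2) * (n 1 ^ 2 + n 2 ^ 2) := by
        have : x.1 0 * n 0 = x.1 1 * n 1 + x.1 2 * n 2 := by linarith
        rw [this]; nlinarith [sq_nonneg (x.1 1 * n 2 - x.1 2 * n 1)]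
      have e1 : x.1 1 ^ 2 + x.1 2 ^ 2 = x.1 0 ^ 2 - 1 := by linarith
      have e2 : n 1 ^ 2 + n 2 ^ 2 = 1 + n 0 ^ 2 := by linarith
      rw [e1, e2] at cs
      nlinarith
    have hs : |sinh r| < cosh r := by
      apply abs_lt_of_sq_lt_sq _ (Real.cosh_pos r).le
      have := Real.cosh_sq r
      linarith
    have : |sinh r * n 0| < cosh r * x.1 0 := by
      rw [abs_mul]
      exact mul_lt_mul'' hs hn0 (abs_nonneg _) (abs_nonneg _)
    have := (abs_lt.1 this).1
    linarith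

/-- The domain. -/
def Dom : Set Hyp := {X | 0 ≤ Fq X.1}

/-- The inward normal. -/
noncomputable def nu (t : ℝ) : Fin 3 → ℝ := (-(1 / √(Gf t))) • Nf t

lemma nu_unit (t : ℝ) : IsUnitTangent (Gam t).1 (nu t) := by
  have hG := Gf_pos t
  constructor
  · unfold nu
    rw [mink_smul_left, mink_smul_right, mink_N_N]
    have := Real.sq_sqrt hG.le
    have h' := (Real.sqrt_pos.2 hG).ne'
    field_simp
    exact this.symm
  · unfold nu
    change mink (hf t • Pf t) _ = 0
    rw [mink_smul_left, mink_smul_right, mink_P_N]; ring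

lemma nu_tangent (t : ℝ) : mink (Gam1 t) (nu t) = 0 := by
  unfold nu Gam1
  rw [mink_smul_right, mink_add_left, mink_smul_left, mink_smul_left, mink_P_N, mink_P1_N]; ring

lemma dFq_smul_Nf (t τ : ℝ) : dFq (Gam t).1 (τ • Nf t) = -(2/5) * qf t * hf t ^ 3 * Gf t * τ := by
  change dFq (hf t • Pf t) _ = _
  rw [dFq_smul, dFq_Pf, mink_N_N]; ring

lemma Fq_Gam (t : ℝ) : Fq (Gam t).1 = 0 := by
  change Fq (hf t • Pf t) = _
  rw [Fq_smul, Fq_Pf]; ring

lemma coef_pos (t : ℝ) : 0 < (2/5) * qf t * hf t ^ 3 * Gf t := by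
  have := qf_pos t
  have := hf_pos t
  have := Gf_pos t
  positivity

/-- geodesics in the direction of the normal enter the domain -/
lemma enters (t τ : ℝ) (hτ : τ < 0) :
    ∃ δ > 0, ∀ r, 0 < r → r < δ → 0 < Fq (geo (Gam t).1 (τ • Nf t) r) := by
  refine eventually_pos _ _ (hasDerivAt_geo _ _) (by simp [geo, Fq_Gam]) ?_
  rw [dFq_smul_Nf]
  have := coef_pos t
  nlinarith

lemma leaves (t τ : ℝ) (hτ : 0 < τ) :
    ∃ δ > 0, ∀ r, 0 < r → r < δ → Fq (geo (Gam t).1 (τ • Nf t) r) < 0 := by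
  obtain ⟨δ, h1, h2⟩ := eventually_pos (fun r => -Fq (geo (Gam t).1 (τ • Nf t) r)) _
    (hasDerivAt_geo (Gam t).1 (τ • Nf t)).neg (by simp [geo, Fq_Gam]) (by
      rw [dFq_smul_Nf]
      have := coef_pos t
      nlinarith)
  exact ⟨δ, h1, fun r hr hr' => by have := h2 r hr hr'; linarith⟩

lemma inward_iff (t : ℝ) (n : Fin 3 → ℝ) : InwardNormal Dom Gam t n ↔ n = nu t := by
  constructor
  · rintro ⟨⟨h1, h2⟩, h3, δ, hδ, h4⟩
    rw [deriv_Gam] at h3
    have hh := (hf_pos t).ne'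
    have p0 : mink (Pf t) n = 0 := by
      have : mink (hf t • Pf t) n = 0 := h2
      rw [mink_smul_left] at this
      exact (mul_eq_zero.1 this).resolve_left hh
    have p1 : mink (P1f t) n = 0 := by
      unfold Gam1 at h3
      rw [mink_add_left, mink_smul_left, mink_smul_left, p0, mul_zero, zero_add] at h3
      exact (mul_eq_zero.1 h3).resolve_left hh
    obtain ⟨τ, rfl⟩ := normal_form t n p0 p1
    rw [mink_smul_left, mink_smul_right, mink_N_N] at h1
    have hG := Gf_pos t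
    have hs := Real.sqrt_pos.2 hG
    have hss := Real.sq_sqrt hG.le
    have hτ : τ < 0 := by
      by_contra hc
      have hτ0 : 0 < τ := by
        rcases lt_or_eq_of_le (not_lt.1 hc) with h | h
        · exact h
        · rw [← h] at h1; simp at h1
      obtain ⟨δ', hδ', h5⟩ := leaves t τ hτ0
      have hm : 0 < min δ δ' := lt_min hδ hδ'
      have hr : 0 < min δ δ' / 2 := by positivity
      have h6 := h5 (min δ δ' / 2) hr (by linarith [min_le_right δ δ'])
      have h7 := h4 (min δ δ' / 2) hr (by linarith [min_le_left δ δ'])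
        ⟨_, geo_mem (Gam t) (τ • Nf t) ⟨by rw [mink_smul_left, mink_smul_right, mink_N_N]; exact h1,
          h2⟩ (min δ δ' / 2)⟩ rfl
      have h8 : 0 ≤ Fq (geo (Gam t).1 (τ • Nf t) (min δ δ' / 2)) := h7
      linarith
    have : τ = -(1 / √(Gf t)) := by
      have h9 : (τ * √(Gf t)) ^ 2 = 1 := by rw [mul_pow, hss]; linarith
      have h10 : τ * √(Gf t) = -1 := by
        have : τ * √(Gf t) < 0 := mul_neg_of_neg_of_pos hτ hs
        nlinarith
      field_simp
      linarith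
    unfold nu
    rw [this]
  · rintro rfl
    refine ⟨nu_unit t, by rw [deriv_Gam]; exact nu_tangent t, ?_⟩
    obtain ⟨δ, hδ, h⟩ := enters t (-(1 / √(Gf t))) (by
      have := Real.sqrt_pos.2 (Gf_pos t)
      rw [neg_lt_zero]; positivity)
    refine ⟨δ, hδ, fun r hr hr' z hz => ?_⟩
    change 0 ≤ Fq z.1
    rw [hz]
    exact (h r hr hr').le

end Pool.Agent.Q35.HR
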